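import Pool.Agent.TH319.CDefs

/-!
Almost isometric prefix projections in complex homogeneous spaces.
-/

namespace Pool.Agent.TH319

open Module Filter Topology

namespace Prefix

section
variable {X : Type*} [NormedAddCommGroup X] [NormedSpace ℂ X]

/-- the component of the vectors of `Z` in `E` along `M` -/
theorem exists_comp {E M Z : Submodule ℂ X} (hd : Disjoint E M) (hEZ : E ≤ Z)
    (hZ : Z ≤ E ⊔ M) :
    ∃ R : Z →ₗ[ℂ] Z, ∀ z : Z, (R z : X) ∈ E ∧ (z : X) - R z ∈ M := by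
  let f : (E × M) →ₗ[ℂ] X := E.subtype.coprod M.subtype
  have hf : Function.Injective f := by
    rw [← LinearMap.ker_eq_bot, LinearMap.ker_eq_bot']
    rintro ⟨g, m⟩ h
    have h1 : (g : X) + (m : X) = 0 := h
    have h2 : (g : X) = -(m : X) := eq_neg_of_add_eq_zero_left h1
    have h3 : (g : X) ∈ M := by rw [h2]; exact M.neg_mem m.2
    have h4 : (g : X) = 0 := by
      have := Submodule.disjoint_def.1 hd (g : X) g.2 h3
      exact this
    have h5 : (m : X) = 0 := by rw [h4, zero_add] at h1; exact h1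
    ext
    · exact h4
    · exact h5
  have hr : LinearMap.range f = E ⊔ M := by
    show LinearMap.range (E.subtype.coprod M.subtype) = E ⊔ M
    rw [LinearMap.range_coprod, Submodule.range_subtype, Submodule.range_subtype]
  let e : (E × M) ≃ₗ[ℂ] LinearMap.range f := LinearEquiv.ofInjective f hf
  let j : Z →ₗ[ℂ] LinearMap.range f := Submodule.inclusion (hr ▸ hZ)
  let R : Z →ₗ[ℂ] Z := (Submodule.inclusion hEZ) ∘ₗ (LinearMap.fst ℂ E M) ∘ₗ
    (e.symm : LinearMap.range f →ₗ[ℂ] (E × M)) ∘ₗ j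
  refine ⟨R, ?_⟩
  intro z
  have h1 : (e (e.symm (j z)) : X) = z := by
    rw [LinearEquiv.apply_symm_apply]; rfl
  have h2 : (e (e.symm (j z)) : X) = ((e.symm (j z)).1 : X) + ((e.symm (j z)).2 : X) := rfl
  have h3 : (R z : X) = ((e.symm (j z)).1 : X) := rfl
  refine ⟨by rw [h3]; exact (e.symm (j z)).1.2, ?_⟩
  have h4 : (z : X) - R z = ((e.symm (j z)).2 : X) := by
    rw [h3, ← h1, h2]; abel
  rw [h4]
  exact (e.symm (j z)).2.2

theorem Ph.disj {ε : ℝ} {G M : Submodule ℂ X} (h : Ph ε G M) : Disjoint G M := by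
  rw [Submodule.disjoint_def]
  intro g hg hm
  have h1 := h (-1) (by simp) g hg (-g) (M.neg_mem hm)
  rw [neg_smul, one_smul, neg_neg, add_neg_cancel, norm_zero, mul_zero] at h1
  have h2 : g + g = 0 := norm_le_zero_iff.1 h1
  have h3 : (2 : ℂ) • g = 0 := by rw [two_smul]; exact h2
  rcases smul_eq_zero.1 h3 with h4 | h4
  · norm_num at h4
  · exact h4

/-- A chain of finite-dimensional and infinite-dimensional subspaces. -/
structure Chn (e1 : ℝ) (E M : ℕ → Submodule ℂ X) (x : ℕ → X) : Prop where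
  fd : ∀ k, FiniteDimensional ℂ (E k)
  ci : ∀ k, CI (M k)
  ph : ∀ k, Ph e1 (E k) (M k)
  mem : ∀ k, x k ∈ M k
  nrm : ∀ k, ‖x k‖ = 1
  E0 : E 0 = ⊥
  Es : ∀ k, E (k + 1) = E k ⊔ Submodule.span ℂ {x k}
  Ms : ∀ k, M (k + 1) ≤ M k

theorem exists_chain [CompleteSpace X] [TopologicalSpace.SeparableSpace X] (hX : Homog ℂ X)
    (hinf : ¬ FiniteDimensional ℂ X) {e1 : ℝ} (he : 0 < e1) :
    ∃ (E M : ℕ → Submodule ℂ X) (x : ℕ → X), Chn e1 E M x := by
  classical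
  let S := {t : Submodule ℂ X × Submodule ℂ X //
    FiniteDimensional ℂ t.1 ∧ CI t.2 ∧ Ph e1 t.1 t.2}
  have hnext : ∀ s : S, ∃ x : X, ∃ s' : S, x ∈ s.1.2 ∧ ‖x‖ = 1 ∧
      s'.1.1 = s.1.1 ⊔ Submodule.span ℂ {x} ∧ s'.1.2 ≤ s.1.2 := by
    intro s
    obtain ⟨x, hx1, hx2⟩ := exists_norm_one_of_inf s.2.2.1.inf
    have hfd : FiniteDimensional ℂ (s.1.1 ⊔ Submodule.span ℂ {x} : Submodule ℂ X) := by
      have := s.2.1
      infer_instance
    obtain ⟨M, hM1, hM2, hM3⟩ := ph_complex hX hfd s.2.2.1 he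
    exact ⟨x, ⟨(s.1.1 ⊔ Submodule.span ℂ {x}, M), hfd, hM1, hM3⟩, hx1, hx2, rfl, hM2⟩
  choose nx ns h1 h2 h3 h4 using hnext
  have htopCI : CI (⊤ : Submodule ℂ X) := by
    refine ⟨isClosed_univ, fun h => hinf ?_⟩
    exact LinearEquiv.finiteDimensional (Submodule.topEquiv : (⊤ : Submodule ℂ X) ≃ₗ[ℂ] X)
  let s0 : S := ⟨(⊥, ⊤), inferInstance, htopCI, by
    intro ζ hζ g hg m _
    rw [Submodule.mem_bot] at hg
    rw [hg, zero_add, zero_add, norm_smul, hζ, one_mul]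
    nlinarith [norm_nonneg m]⟩
  let sq : ℕ → S := fun n => Nat.rec s0 (fun _ s => ns s) n
  have hsq : ∀ i, sq (i + 1) = ns (sq i) := fun i => rfl
  refine ⟨fun k => (sq k).1.1, fun k => (sq k).1.2, fun k => nx (sq k), ?_⟩
  exact
    { fd := fun k => (sq k).2.1
      ci := fun k => (sq k).2.2.1
      ph := fun k => (sq k).2.2.2
      mem := fun k => h1 (sq k)
      nrm := fun k => h2 (sq k)
      E0 := rfl
      Es := fun k => h3 (sq k)
      Ms := fun k => h4 (sq k) }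

namespace Chn

variable {e1 : ℝ} {E M : ℕ → Submodule ℂ X} {x : ℕ → X}

theorem E_mono (h : Chn e1 E M x) : Monotone E :=
  monotone_nat_of_le_succ fun k => by rw [h.Es]; exact le_sup_left

theorem M_anti (h : Chn e1 E M x) : Antitone M := antitone_nat_of_succ_le h.Ms

theorem mem_E (h : Chn e1 E M x) {j k : ℕ} (hjk : j < k) : x j ∈ E k := by
  apply h.E_mono (Nat.succ_le_of_lt hjk)
  rw [Nat.succ_eq_add_one, h.Es]
  exact Submodule.mem_sup_right (Submodule.mem_span_singleton_self _)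

theorem mem_M (h : Chn e1 E M x) {j k : ℕ} (hjk : k ≤ j) : x j ∈ M k :=
  h.M_anti hjk (h.mem j)

theorem ne_zero (h : Chn e1 E M x) (k : ℕ) : x k ≠ 0 := by
  intro h0
  have := h.nrm k
  rw [h0, norm_zero] at this
  exact zero_ne_one this

theorem finrank_ge (h : Chn e1 E M x) (k : ℕ) : k ≤ finrank ℂ (E k) := by
  induction k with
  | zero => exact Nat.zero_le _
  | succ k ih =>
    have hlt : E k < E (k + 1) := by
      refine lt_of_le_of_ne (h.E_mono (Nat.le_succ k)) ?_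
      intro heq
      have h1 : x k ∈ E k := by rw [heq]; exact h.mem_E (Nat.lt_succ_self k)
      exact h.ne_zero k (Submodule.disjoint_def.1 (Ph.disj (h.ph k)) _ h1 (h.mem k))
    have := h.fd (k + 1)
    have := Submodule.finrank_lt_finrank_of_lt hlt
    omega

/-- the closed span -/
noncomputable def Z (_ : Chn e1 E M x) : Submodule ℂ X := (⨆ k, E k).topologicalClosure

theorem E_le_Z (h : Chn e1 E M x) (k : ℕ) : E k ≤ h.Z :=
  (le_iSup E k).trans (Submodule.le_topologicalClosure _)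

theorem Z_CI (h : Chn e1 E M x) : CI h.Z := by
  constructor
  · exact Submodule.isClosed_topologicalClosure _
  · intro hfd
    have h1 := h.finrank_ge (finrank ℂ h.Z + 1)
    have h2 := Submodule.finrank_mono (h.E_le_Z (finrank ℂ h.Z + 1))
    omega

theorem E_le_sup (h : Chn e1 E M x) (k j : ℕ) : E j ≤ E k ⊔ M k := by
  induction j with
  | zero => rw [h.E0]; exact bot_le
  | succ j ih =>
    rw [h.Es]
    refine sup_le ih ?_
    rw [Submodule.span_singleton_le_iff_mem]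
    rcases Nat.lt_or_ge j k with hjk | hjk
    · exact Submodule.mem_sup_left (h.mem_E hjk)
    · exact Submodule.mem_sup_right (h.mem_M hjk)

theorem Z_le (h : Chn e1 E M x) (k : ℕ) : h.Z ≤ E k ⊔ M k := by
  apply Submodule.topologicalClosure_minimal
  · exact iSup_le (h.E_le_sup k)
  · have := h.fd k
    rw [sup_comm]
    exact Submodule.isClosed_sup_finiteDimensional (M k) (E k) (h.ci k).closed

theorem exists_R (h : Chn e1 E M x) (k : ℕ) :
    ∃ R : h.Z →ₗ[ℂ] h.Z, ∀ z : h.Z, (R z : X) ∈ E k ∧ (z : X) - R z ∈ M k :=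
  exists_comp (Ph.disj (h.ph k)) (h.E_le_Z k) (h.Z_le k)

/-- the projections -/
noncomputable def R (h : Chn e1 E M x) (k : ℕ) : h.Z →ₗ[ℂ] h.Z := (h.exists_R k).choose

theorem R_mem (h : Chn e1 E M x) (k : ℕ) (z : h.Z) : (h.R k z : X) ∈ E k :=
  ((h.exists_R k).choose_spec z).1

theorem sub_R_mem (h : Chn e1 E M x) (k : ℕ) (z : h.Z) : (z : X) - h.R k z ∈ M k :=
  ((h.exists_R k).choose_spec z).2

theorem R_of_mem (h : Chn e1 E M x) {k : ℕ} {z : h.Z} (hz : (z : X) ∈ E k) : h.R k z = z := by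
  have h1 : (z : X) - h.R k z ∈ E k := (E k).sub_mem hz (h.R_mem k z)
  have h2 := Submodule.disjoint_def.1 (Ph.disj (h.ph k)) _ h1 (h.sub_R_mem k z)
  exact Subtype.ext (sub_eq_zero.1 h2).symm

theorem R_of_mem_M (h : Chn e1 E M x) {k : ℕ} {z : h.Z} (hz : (z : X) ∈ M k) :
    h.R k z = 0 := by
  have h1 : (h.R k z : X) ∈ M k := by
    have := (M k).sub_mem hz (h.sub_R_mem k z)
    rwa [sub_sub_cancel] at this
  exact Subtype.ext (Submodule.disjoint_def.1 (Ph.disj (h.ph k)) _ (h.R_mem k z) h1)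

theorem R_zero (h : Chn e1 E M x) : h.R 0 = 0 := by
  ext z
  have := h.R_mem 0 z
  rw [h.E0, Submodule.mem_bot] at this
  rw [this]; rfl

theorem R_np (h : Chn e1 E M x) (k : ℕ) : NP e1 (h.R k) := by
  constructor
  · intro y
    exact h.R_of_mem (h.R_mem k y)
  · intro ζ hζ y
    have hζ0 : ζ ≠ 0 := by
      rintro rfl
      rw [norm_zero] at hζ
      exact zero_ne_one hζ
    have h1 := h.ph k ζ⁻¹ (by rw [norm_inv, hζ, inv_one]) _ (h.R_mem k y) _ (h.sub_R_mem k y)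
    have h2 : (h.R k y : X) + ((y : X) - h.R k y) = y := by abel
    rw [h2] at h1
    have h3 : ((y + (ζ - 1) • h.R k y : h.Z) : X)
        = ζ • ((h.R k y : X) + ζ⁻¹ • ((y : X) - h.R k y)) := by
      rw [smul_add, smul_smul, mul_inv_cancel₀ hζ0, one_smul]
      push_cast
      rw [sub_smul, one_smul]
      abel
    have h4 : ‖y + (ζ - 1) • h.R k y‖ = ‖((y + (ζ - 1) • h.R k y : h.Z) : X)‖ := rfl
    rw [h4, h3, norm_smul, hζ, one_mul]
    exact h1

/-- the vectors -/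
noncomputable def y (h : Chn e1 E M x) (k : ℕ) : h.Z :=
  ⟨x k, h.E_le_Z (k + 1) (h.mem_E (Nat.lt_succ_self k))⟩

theorem exists_ψ (h : Chn e1 E M x) (k : ℕ) : ∃ ψ : X →L[ℂ] ℂ, ψ (x k) = 1 := by
  obtain ⟨g, _, hg2⟩ := exists_dual_vector'' ℂ (x k)
  exact ⟨g, by rw [hg2, h.nrm]; simp⟩

/-- coordinate functionals -/
noncomputable def φ (h : Chn e1 E M x) (k : ℕ) : h.Z →ₗ[ℂ] ℂ :=
  ((h.exists_ψ k).choose : X →ₗ[ℂ] ℂ) ∘ₗ h.Z.subtype ∘ₗ (h.R (k + 1) - h.R k)

theorem D_eq (h : Chn e1 E M x) (k : ℕ) (z : h.Z) :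
    h.R (k + 1) z - h.R k z = h.φ k z • h.y k := by
  have h1 : ((h.R (k + 1) z - h.R k z : h.Z) : X) ∈ M k := by
    have a := h.sub_R_mem k z
    have b := h.Ms k (h.sub_R_mem (k + 1) z)
    have := (M k).sub_mem a b
    have e : ((z : X) - h.R k z) - ((z : X) - h.R (k + 1) z)
        = ((h.R (k + 1) z - h.R k z : h.Z) : X) := by
      push_cast; abel
    rwa [e] at this
  have h2 : ((h.R (k + 1) z - h.R k z : h.Z) : X) ∈ E k ⊔ Submodule.span ℂ {x k} := by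
    rw [← h.Es]
    push_cast
    exact (E (k + 1)).sub_mem (h.R_mem _ _) (h.E_mono (Nat.le_succ k) (h.R_mem _ _))
  obtain ⟨g, hg, w, hw, hgw⟩ := Submodule.mem_sup.1 h2
  obtain ⟨c, rfl⟩ := Submodule.mem_span_singleton.1 hw
  have h3 : g ∈ M k := by
    have : g = ((h.R (k + 1) z - h.R k z : h.Z) : X) - c • x k := by
      rw [← hgw]; abel
    rw [this]
    exact (M k).sub_mem h1 ((M k).smul_mem _ (h.mem k))
  have h4 : g = 0 := Submodule.disjoint_def.1 (Ph.disj (h.ph k)) _ hg h3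
  have h5 : ((h.R (k + 1) z - h.R k z : h.Z) : X) = c • x k := by
    rw [← hgw, h4, zero_add]
  have h6 : h.φ k z = c := by
    show (h.exists_ψ k).choose ((h.R (k + 1) z - h.R k z : h.Z) : X) = c
    rw [h5, map_smul, (h.exists_ψ k).choose_spec, smul_eq_mul, mul_one]
  apply Subtype.ext
  rw [h5, h6]
  rfl

theorem φ_y (h : Chn e1 E M x) (k : ℕ) : h.φ k (h.y k) = 1 := by
  have h1 : h.R (k + 1) (h.y k) = h.y k := h.R_of_mem (h.mem_E (Nat.lt_succ_self k))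
  have h2 : h.R k (h.y k) = 0 := h.R_of_mem_M (h.mem k)
  show (h.exists_ψ k).choose ((h.R (k + 1) (h.y k) - h.R k (h.y k) : h.Z) : X) = 1
  rw [h1, h2, sub_zero]
  exact (h.exists_ψ k).choose_spec

theorem φ_np (h : Chn e1 E M x) (he : 0 ≤ e1) {ε : ℝ} (hε : (1 + e1) * (1 + e1) ≤ 1 + ε)
    (k : ℕ) : NP ε ((h.φ k).smulRight (h.y k)) := by
  constructor
  · intro z
    simp only [LinearMap.smulRight_apply, map_smul, h.φ_y, one_smul]
  · intro ζ hζ z
    have hζ0 : ζ ≠ 0 := by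
      rintro rfl
      rw [norm_zero] at hζ
      exact zero_ne_one hζ
    rw [LinearMap.smulRight_apply, ← h.D_eq]
    set w : h.Z := z + (ζ⁻¹ - 1) • h.R k z with hw
    have h1 : ‖w‖ ≤ (1 + e1) * ‖z‖ := (h.R_np k).ph ζ⁻¹ (by rw [norm_inv, hζ, inv_one]) z
    have h2 : ‖w + (ζ - 1) • h.R (k + 1) w‖ ≤ (1 + e1) * ‖w‖ := (h.R_np (k + 1)).ph ζ hζ w
    have h3 : h.R (k + 1) (h.R k z) = h.R k z :=
      h.R_of_mem (h.E_mono (Nat.le_succ k) (h.R_mem k z))
    have h4 : z + (ζ - 1) • (h.R (k + 1) z - h.R k z) = w + (ζ - 1) • h.R (k + 1) w := by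
      rw [hw, map_add, map_smul, h3]
      have e1 : (ζ - 1) * (ζ⁻¹ - 1) = 1 - ζ - (ζ⁻¹ - 1) := by
        field_simp
      rw [smul_add (ζ - 1) (h.R (k + 1) z), smul_smul, e1, smul_sub, sub_smul (1 - ζ),
        sub_smul 1 ζ, sub_smul ζ 1, sub_smul ζ 1, one_smul, one_smul]
      abel
    rw [h4]
    calc _ ≤ (1 + e1) * ‖w‖ := h2
      _ ≤ (1 + e1) * ((1 + e1) * ‖z‖) := by gcongr
      _ = (1 + e1) * (1 + e1) * ‖z‖ := by ring
      _ ≤ (1 + ε) * ‖z‖ := by gcongr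

theorem R_norm (h : Chn e1 E M x) (he : e1 ≤ 1) (k : ℕ) (z : h.Z) : ‖h.R k z‖ ≤ 2 * ‖z‖ := by
  have h1 := (h.R_np k).ph (-1) (by simp) z
  have h2 : (2 : ℂ) • h.R k z = z - (z + (-1 - 1 : ℂ) • h.R k z) := by
    rw [show (-1 - 1 : ℂ) = -2 by norm_num, neg_smul]; abel
  have h3 : 2 * ‖h.R k z‖ = ‖(2 : ℂ) • h.R k z‖ := by rw [norm_smul]; norm_num
  have h4 : ‖z - (z + (-1 - 1 : ℂ) • h.R k z)‖ ≤ ‖z‖ + (1 + e1) * ‖z‖ :=
    (norm_sub_le _ _).trans (by gcongr)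
  rw [h2] at h3
  nlinarith [norm_nonneg z]

theorem R_tendsto (h : Chn e1 E M x) (he : e1 ≤ 1) (z : h.Z) :
    Tendsto (fun k => h.R k z) atTop (𝓝 z) := by
  rw [Metric.tendsto_atTop]
  intro δ hδ
  have hz : (z : X) ∈ closure ((⨆ k, E k : Submodule ℂ X) : Set X) := by
    have := z.2
    rw [← Submodule.topologicalClosure_coe]
    exact this
  obtain ⟨s, hs, hsz⟩ := Metric.mem_closure_iff.1 hz (δ / 4) (by positivity)
  have hs' : s ∈ (⨆ k, E k : Submodule ℂ X) := hs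
  rw [Submodule.mem_iSup_of_directed _ (h.E_mono.directed_le)] at hs'
  obtain ⟨N, hN⟩ := hs'
  refine ⟨N, fun k hk => ?_⟩
  let s' : h.Z := ⟨s, h.E_le_Z N hN⟩
  have h1 : h.R k s' = s' := h.R_of_mem (h.E_mono hk hN)
  have h2 : ‖z - s'‖ < δ / 4 := by
    have : ‖z - s'‖ = dist (z : X) s := by rw [dist_eq_norm]; rfl
    rw [this]; exact hsz
  have h3 : h.R k z - z = h.R k (z - s') - (z - s') := by
    rw [map_sub, h1]; abel
  rw [dist_eq_norm, h3]
  calc ‖h.R k (z - s') - (z - s')‖ ≤ ‖h.R k (z - s')‖ + ‖z - s'‖ := norm_sub_le _ _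
    _ ≤ 2 * ‖z - s'‖ + ‖z - s'‖ := by gcongr; exact h.R_norm he k _
    _ < δ := by linarith

end Chn

end

end Prefix

/-- Almost isometric prefix projections. -/
theorem exists_prefix {X : Type*} [NormedAddCommGroup X] [NormedSpace ℂ X] [CompleteSpace X]
    [TopologicalSpace.SeparableSpace X] (hX : Homog ℂ X) (hinf : ¬ FiniteDimensional ℂ X)
    {ε : ℝ} (hε : 0 < ε) :
    ∃ (R : ℕ → (X →ₗ[ℂ] X)) (y : ℕ → X) (φ : ℕ → (X →ₗ[ℂ] ℂ)),
      (R 0 = 0) ∧ (∀ k x, R (k + 1) x = R k x + φ k x • y k) ∧ (∀ k, NP ε (R k)) ∧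
      (∀ k, NP ε ((φ k).smulRight (y k))) ∧ (∀ k, φ k (y k) = 1) ∧
      (∀ x, Tendsto (fun k => R k x) atTop (𝓝 x)) := by
  set e1 : ℝ := min 1 (ε / 3) with he1
  have hpos : 0 < e1 := lt_min one_pos (by positivity)
  have hle1 : e1 ≤ 1 := min_le_left _ _
  have hle2 : e1 ≤ ε / 3 := min_le_right _ _
  have hsq : (1 + e1) * (1 + e1) ≤ 1 + ε := by nlinarith
  obtain ⟨E, M, x, h⟩ := Prefix.exists_chain hX hinf hpos
  obtain ⟨e⟩ := hX _ h.Z_CI.closed h.Z_CI.inf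
  let T : (h.Z →ₗ[ℂ] h.Z) → (X →ₗ[ℂ] X) := fun A =>
    (e.symm.toLinearEquiv : h.Z →ₗ[ℂ] X) ∘ₗ A ∘ₗ (e.toLinearEquiv : X →ₗ[ℂ] h.Z)
  have hT : ∀ A z, T A z = e.symm (A (e z)) := fun A z => rfl
  have hNP : ∀ (A : h.Z →ₗ[ℂ] h.Z) {η : ℝ}, NP η A → NP η (T A) := by
    intro A η hA
    constructor
    · intro z
      rw [hT, hT, e.apply_symm_apply, hA.idem]
    · intro ζ hζ z
      have h1 := hA.ph ζ hζ (e z)
      have h2 : z + (ζ - 1) • T A z = e.symm (e z + (ζ - 1) • A (e z)) := by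
        rw [map_add, map_smul, e.symm_apply_apply, hT]
      rw [h2, e.symm.norm_map]
      rw [e.norm_map] at h1
      exact h1
  have hφ : ∀ k, (h.φ k ∘ₗ (e.toLinearEquiv : X →ₗ[ℂ] h.Z)).smulRight (e.symm (h.y k))
      = T ((h.φ k).smulRight (h.y k)) := by
    intro k
    ext z
    show h.φ k (e z) • e.symm (h.y k) = e.symm (h.φ k (e z) • h.y k)
    rw [map_smul]
  refine ⟨fun k => T (h.R k), fun k => e.symm (h.y k),
    fun k => h.φ k ∘ₗ (e.toLinearEquiv : X →ₗ[ℂ] h.Z), ?_, ?_, ?_, ?_, ?_, ?_⟩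
  · ext z
    show e.symm (h.R 0 (e z)) = 0
    rw [h.R_zero]
    simp
  · intro k z
    show e.symm (h.R (k + 1) (e z)) = e.symm (h.R k (e z)) + h.φ k (e z) • e.symm (h.y k)
    rw [← map_smul, ← map_add, ← h.D_eq]
    congr 1
    abel
  · intro k
    exact (hNP _ (h.R_np k)).mono (by linarith)
  · intro k
    show NP ε ((h.φ k ∘ₗ (e.toLinearEquiv : X →ₗ[ℂ] h.Z)).smulRight (e.symm (h.y k)))
    rw [hφ]
    exact hNP _ (h.φ_np hpos.le hsq k)
  · intro k
    show h.φ k (e (e.symm (h.y k))) = 1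
    rw [e.apply_symm_apply, h.φ_y]
  · intro z
    have h1 := (e.symm.continuous.tendsto (e z)).comp (h.R_tendsto hle1 (e z))
    rw [e.symm_apply_apply] at h1
    exact h1

end Pool.Agent.TH319
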